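import Mathlib
import Pool.Agent.Helper11.MT.Unbounded

namespace Pool.Agent.Results.MP_78140d_nt.QuotientUnbounded

/-- The `i`-th prime, with `p 1 = 2`, `p 2 = 3`, and so on (indices start at one). -/
noncomputable def p (i : ℕ) : ℕ := Nat.nth Nat.Prime (i - 1)

/-- The sum of two consecutive primes, `S i = p i + p (i + 1)`. -/
noncomputable def S (i : ℕ) : ℕ := p i + p (i + 1)

/-- The quotient `S (a n) / S n` is unbounded, where `a n` is the least index `k > n` with
`S n ∣ S k`, over the indices `n ≥ 1` for which such a `k` exists. -/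
theorem result : ¬ ∃ C : ℝ, ∀ n : ℕ, 1 ≤ n → ∀ a : ℕ,
    IsLeast {k : ℕ | n < k ∧ S n ∣ S k} a → (S a : ℝ) ≤ C * S n :=
  Pool.Agent.Helper11.MT.unbounded S (fun _ _ => rfl)

end Pool.Agent.Results.MP_78140d_nt.QuotientUnbounded
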